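import Pool.Agent.Lib.MP_4fbe7c_an.FC.Iface2

/-!
Project FC (MP_4fbe7c_an): module EXE (helper74), extinction of all fast species, for every number
of species.  Adapted from `FC/H75/ExA.lean`.
-/

set_option autoImplicit false

open Set

namespace Pool.Agent.Lib.MP_4fbe7c_an.FC.H74

open Pool.Agent.Lib.MP_4fbe7c_an.SD Pool.Agent.Lib.MP_4fbe7c_an.FC

theorem yy_nonneg {L : ℝ} (hL : 0 < L) {N : ℕ} (u v : Fin N → ℝ → ℝ → ℝ) (i : Fin N) (t : ℝ) :
    0 ≤ yy L u v i t := by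
  unfold yy
  exact intervalIntegral.integral_nonneg hL.le fun x _ => sq_nonneg _

/-- **EXE** -/
theorem exe (hPa : PaStatement) (hPsi : PsiStatement) (hMass : MassStatement)
    (hSup : SupBStatement) (hY : YBdStatement) (hYu : YBuStatement) (hFet : FetStatement)
    (hCore : CorUStatement) (hExs : ExSStatement) : ExEStatement := by
  classical
  intro L M a b m hL hm hnc hM hM0 ha hab
  obtain ⟨P, q, ψ, ψ', ψ'', Ψ, Ψ', hP, hq, hT⟩ := hPsi L m hL hm hnc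
  obtain ⟨K, hK, hYK⟩ := hYu L M a ha
  obtain ⟨C₃, hC₃⟩ : ∃ C₃ : ℝ, C₃ = b * P + (b * P) ^ 2 * L / q := ⟨_, rfl⟩
  obtain ⟨ρ, hρ⟩ : ∃ ρ : ℝ, ρ = 6 * M ^ 2 * L := ⟨_, rfl⟩
  have hb : 0 < b := lt_of_lt_of_le ha hab
  have hC₃0 : 0 ≤ C₃ := by rw [hC₃]; positivity
  have hρ0 : 0 ≤ ρ := by rw [hρ]; positivity
  obtain ⟨A₁, hA₁⟩ : ∃ A₁ : ℝ, A₁ = 4 * P * (2 * M ^ 2 * L + ρ) / q := ⟨_, rfl⟩
  obtain ⟨A₂, hA₂⟩ : ∃ A₂ : ℝ, A₂ = 8 * L ^ 2 * ρ * (C₃ + 8 * M ^ 2 * P ^ 2 * L ^ 3 *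
    Real.exp (2 * (1 + L * K)) / q) / (a * q) := ⟨_, rfl⟩
  have hA₁0 : 0 ≤ A₁ := by rw [hA₁]; positivity
  have hA₂0 : 0 ≤ A₂ := by rw [hA₂]; positivity
  have hD0 : 0 < 1 + A₁ + A₂ := by positivity
  refine ⟨1 + A₁ + A₂, hD0, ?_⟩
  intro N d u v w i₀ j hC hai hib hpi hmin hj hdj
  -- the slow present species
  obtain ⟨S, hS⟩ : ∃ S : Finset (Fin N), S = Finset.univ.filter
    (fun k => Pres L u k ∧ (k = i₀ ∨ d k < 1 + A₁ + A₂)) := ⟨_, rfl⟩
  have hmemS : ∀ k, k ∈ S ↔ Pres L u k ∧ (k = i₀ ∨ d k < 1 + A₁ + A₂) := fun k => by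
    rw [hS, Finset.mem_filter]
    exact ⟨fun h => h.2, fun h => ⟨Finset.mem_univ _, h⟩⟩
  have hiS : i₀ ∈ S := (hmemS i₀).2 ⟨hpi, Or.inl rfl⟩
  have hSp : ∀ k ∈ S, Pres L u k ∧ d i₀ ≤ d k := fun k hk =>
    ⟨((hmemS k).1 hk).1, hmin k ((hmemS k).1 hk).1⟩
  have hSn : ∀ k, k ∉ S → 1 + A₁ + A₂ ≤ d k ∨ Absent L u k := by
    intro k hk
    rcases (hPa L M m N d u v w hC k).1 with h1 | h1
    · left
      by_contra h2
      push Not at h2
      exact hk ((hmemS k).2 ⟨h1, Or.inr h2⟩)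
    · exact Or.inr h1
  -- the bound of `yy` for the species of `S`
  have hYS : ∀ k : Fin N, ∃ T : ℝ, 0 < T ∧ (k ∈ S → ∀ t, T ≤ t → yy L u v k t ≤ K) := by
    intro k
    by_cases hk : k ∈ S
    · obtain ⟨T, hT0, h1⟩ := hYK m N d u v w k hC (hai.trans (hSp k hk).2) (hSp k hk).1
      exact ⟨T, hT0, fun _ => h1⟩
    · exact ⟨1, one_pos, fun h => absurd h hk⟩
  choose τ hτ0 hτ using hYS
  have hτle : ∀ k, τ k ≤ ∑ i, τ i := fun k =>
    Finset.single_le_sum (fun i _ => (hτ0 i).le) (Finset.mem_univ k)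
  obtain ⟨hmass0, T₁, hT₁, hmass⟩ := hMass L M m N d u v w hC
  obtain ⟨T₂, hT₂, hsup⟩ := hSup L M m N d u v w hC
  obtain ⟨K₂, T₄, hT₄, hy₂⟩ := hY L M m N d u v w j hC hj
  obtain ⟨T, hTdef⟩ : ∃ T : ℝ, T = max (max T₁ T₂) (max (∑ i, τ i) T₄) := ⟨_, rfl⟩
  have hT1 : T₁ ≤ T := by rw [hTdef]; exact (le_max_left _ _).trans (le_max_left _ _)
  have hT2 : T₂ ≤ T := by rw [hTdef]; exact (le_max_right _ _).trans (le_max_left _ _)
  have hT3 : (∑ i, τ i) ≤ T := by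
    rw [hTdef]; exact (le_max_left _ _).trans (le_max_right _ _)
  have hT4 : T₄ ≤ T := by rw [hTdef]; exact (le_max_right _ _).trans (le_max_right _ _)
  have hT0 : 0 < T := lt_of_lt_of_le hT₁ hT1
  have hyS : ∀ k ∈ S, ∀ t, T ≤ t → yy L u v k t ≤ K := fun k hk t ht =>
    hτ k hk t ((hτle k).trans (hT3.trans ht))
  have hm' : ∀ t, T ≤ t → ∃ I' : ℝ, HasDerivAt (mass L u) I' t ∧
      U2 L u t ≤ -I' + 2 * M ^ 2 * L ∧ R2 L m u t ≤ -(2 * I') + 6 * M ^ 2 * L := fun t ht =>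
    (hmass t (hT1.trans ht)).2
  choose! I' hI' using hm'
  have hfet := fun t (ht : 0 < t) =>
    hFet L M P q m ψ ψ' ψ'' Ψ Ψ' N d u v w i₀ hC hT hP hpi t ht
  have hf' : ∀ t, 0 < t → ∃ F' : ℝ,
      HasDerivAt (fun t => ∫ x in (0)..L, Real.log (u i₀ t x) * ψ x) F' t ∧
        ∀ κ : ℝ, 0 < κ → ∫ x in (0)..L, (m x - ∑ k, u k t x) * ψ x ≤
          F' + κ + (d i₀ * P + (d i₀ * P) ^ 2 * L / (4 * κ)) * yy L u v i₀ t := fun t ht =>
    (hfet t ht).2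
  choose! F' hF' using hf'
  have hdi : 0 < d i₀ := hC.hd i₀
  obtain ⟨c, C, hc, hlg⟩ := hCore L M P q ρ C₃ (1 + A₁ + A₂) K 0 (P * L * (1 + L * K)) T
    m ψ ψ' ψ'' Ψ Ψ' N d u v w i₀ j S (fun t => 2 * mass L u t) (fun t => 2 * I' t)
    (fun t => ∫ x in (0)..L, Real.log (u i₀ t x) * ψ x) F'
    hC hT hP hq hρ0 hC₃0 hD0 hK.le hT0 hiS hSp hyS hSn hj hdj
    (by
      have : 4 * P * (2 * M ^ 2 * L + ρ) = q * A₁ := by
        rw [hA₁]; field_simp
      rw [this]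
      exact mul_le_mul_of_nonneg_left (by linarith) hq.le)
    (by
      have e : 8 * L ^ 2 * ρ * (C₃ + 8 * M ^ 2 * P ^ 2 * L ^ 3 *
          Real.exp (2 * (1 + L * K)) / q) = a * q * A₂ := by
        rw [hA₂]; field_simp
      rw [e]
      have h1 : a * q * A₂ ≤ d i₀ * q * A₂ := by
        have : a * q ≤ d i₀ * q := mul_le_mul_of_nonneg_right hai hq.le
        exact mul_le_mul_of_nonneg_right this hA₂0
      refine h1.trans ?_
      exact mul_le_mul_of_nonneg_left (by linarith) (by positivity))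
    (fun t ht => (hmass t (hT1.trans ht)).1)
    (fun t ht x hx => hsup t (hT2.trans ht) x hx i₀)
    (fun t ht => ⟨I' t, (hI' t ht).1, (hI' t ht).2.1⟩)
    (fun t ht => ⟨(hI' t ht).1.const_mul 2, by
      rw [hρ]
      exact (hI' t ht).2.2, by
      have := hmass0 t (hT0.le.trans ht)
      simp only [neg_zero]
      linarith⟩)
    (fun t ht => by
      have ht0 : 0 < t := lt_of_lt_of_le hT0 ht
      have hyy := yy_nonneg hL u v i₀ t
      refine ⟨(hF' t ht0).1, ?_, ?_⟩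
      · refine ((hF' t ht0).2 (q / 4) (by positivity)).trans ?_
        have e1 : d i₀ * P + (d i₀ * P) ^ 2 * L / (4 * (q / 4)) ≤ C₃ := by
          have e2 : (4 : ℝ) * (q / 4) = q := by ring
          rw [e2, hC₃]
          have h3 : d i₀ * P ≤ b * P := mul_le_mul_of_nonneg_right hib hP.le
          have h4 : (d i₀ * P) ^ 2 ≤ (b * P) ^ 2 := pow_le_pow_left₀ (by positivity) h3 2
          have h5 : (d i₀ * P) ^ 2 * L / q ≤ (b * P) ^ 2 * L / q :=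
            div_le_div_of_nonneg_right (mul_le_mul_of_nonneg_right h4 hL.le) hq.le
          linarith
        have := mul_le_mul_of_nonneg_right e1 hyy
        linarith
      · refine (le_abs_self _).trans ((hfet t ht0).1.trans ?_)
        have h6 := hyS i₀ hiS t ht
        have h7 : L * yy L u v i₀ t ≤ L * K := mul_le_mul_of_nonneg_left h6 hL.le
        exact mul_le_mul_of_nonneg_left (by linarith) (by positivity))
  exact hExs L M c C K₂ T m N d u v w j hC hj hT0 hc (fun t ht => hy₂ t (hT4.trans ht)) hlg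

end Pool.Agent.Lib.MP_4fbe7c_an.FC.H74
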