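import Pool.Agent.Lib.MP_4fbe7c_an.FC.Iface

/-!
Project FC (MP_4fbe7c_an), module YBD (helper74): `yy` is bounded, by an ODE barrier for
`y + (2 / d) mass`.
-/

set_option autoImplicit false

open Set

namespace Pool.Agent.Lib.MP_4fbe7c_an.FC.H74

open Pool.Agent.Lib.MP_4fbe7c_an.SD Pool.Agent.Lib.MP_4fbe7c_an.FC

/-- A linear differential inequality `g' ≤ - k (g - c)` on `[T, ∞)` bounds `g`. -/
theorem barrier {g g' : ℝ → ℝ} {T k c : ℝ} (hk : 0 ≤ k)
    (hd : ∀ t, T ≤ t → HasDerivAt g (g' t) t) (hi : ∀ t, T ≤ t → g' t ≤ -(k * (g t - c))) :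
    ∀ t, T ≤ t → g t ≤ c + |g T - c| := by
  intro t ht
  have hH : ∀ s, T ≤ s → HasDerivAt (fun s => (g s - c) * Real.exp (k * (s - T)))
      (g' s * Real.exp (k * (s - T)) + (g s - c) * (Real.exp (k * (s - T)) * (k * 1))) s := by
    intro s hs
    have h1 : HasDerivAt (fun s => g s - c) (g' s) s := (hd s hs).sub_const c
    have h2 : HasDerivAt (fun s => k * (s - T)) (k * 1) s :=
      ((hasDerivAt_id s).sub_const T).const_mul k
    exact h1.mul h2.exp
  have hanti : AntitoneOn (fun s => (g s - c) * Real.exp (k * (s - T))) (Ici T) := by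
    refine antitoneOn_of_deriv_nonpos (convex_Ici T)
      (fun s hs => (hH s hs).continuousAt.continuousWithinAt) ?_ ?_
    · intro s hs
      rw [interior_Ici] at hs
      exact (hH s (le_of_lt hs)).differentiableAt.differentiableWithinAt
    · intro s hs
      rw [interior_Ici] at hs
      have hs' : T ≤ s := le_of_lt hs
      rw [(hH s hs').deriv]
      have h3 := hi s hs'
      have h4 : 0 < Real.exp (k * (s - T)) := Real.exp_pos _
      have h5 : g' s * Real.exp (k * (s - T)) + (g s - c) * (Real.exp (k * (s - T)) * (k * 1)) =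
          (g' s + k * (g s - c)) * Real.exp (k * (s - T)) := by ring
      rw [h5]
      exact mul_nonpos_of_nonpos_of_nonneg (by linarith) h4.le
  have h6 := hanti (mem_Ici.2 le_rfl) (mem_Ici.2 ht) ht
  simp only [sub_self, mul_zero, Real.exp_zero, mul_one] at h6
  rcases le_total (g t) c with h7 | h7
  · linarith [abs_nonneg (g T - c)]
  · have h8 : 1 ≤ Real.exp (k * (t - T)) :=
      Real.one_le_exp (mul_nonneg hk (by linarith))
    have h9 : (g t - c) * 1 ≤ (g t - c) * Real.exp (k * (t - T)) :=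
      mul_le_mul_of_nonneg_left h8 (by linarith)
    have h10 := le_abs_self (g T - c)
    linarith

/-- **YBD** -/
theorem ybd (h1 : YIneStatement) (h2 : MassStatement) : YBdStatement := by
  intro L M m N d u v w i hC hP
  obtain ⟨hm0, T, hT, hm⟩ := h2 L M m N d u v w hC
  have hd0 : 0 < d i := hC.hd i
  have hL : 0 < L := hC.hL
  have hM : 0 < M := hC.hM0
  have hy : ∀ t, T ≤ t → ∃ y' : ℝ, HasDerivAt (yy L u v i) y' t ∧
      y' ≤ -(d i / L ^ 2 * yy L u v i t) + R2 L m u t / d i := fun t ht =>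
    h1 L M m N d u v w i hC hP t (lt_of_lt_of_le hT ht)
  -- the derivative of `g`
  have hex : ∀ t : ℝ, ∃ g' : ℝ, T ≤ t →
      HasDerivAt (fun s => yy L u v i s + 2 / d i * mass L u s) g' t ∧
        g' ≤ -(d i / L ^ 2 * ((yy L u v i t + 2 / d i * mass L u t) -
          (4 * M * L / d i + 6 * M ^ 2 * L ^ 3 / d i ^ 2))) := by
    intro t
    by_cases ht : T ≤ t
    · obtain ⟨y', hy1, hy2⟩ := hy t ht
      obtain ⟨hmt, I', hI1, -, hI2⟩ := hm t ht
      refine ⟨y' + 2 / d i * I', fun _ => ⟨hy1.add (hI1.const_mul _), ?_⟩⟩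
      have h3 : R2 L m u t / d i ≤ (-(2 * I') + 6 * M ^ 2 * L) / d i :=
        div_le_div_of_nonneg_right hI2 hd0.le
      have h4 : (-(2 * I') + 6 * M ^ 2 * L) / d i = -(2 / d i * I') + 6 * M ^ 2 * L / d i := by
        field_simp
      have h5 : d i / L ^ 2 * (2 / d i * mass L u t) ≤ d i / L ^ 2 * (2 / d i * (2 * M * L)) :=
        mul_le_mul_of_nonneg_left (mul_le_mul_of_nonneg_left hmt (by positivity))
          (by positivity)
      have h6 : d i / L ^ 2 * (2 / d i * (2 * M * L)) + 6 * M ^ 2 * L / d i =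
          d i / L ^ 2 * (4 * M * L / d i + 6 * M ^ 2 * L ^ 3 / d i ^ 2) := by
        field_simp
        ring
      nlinarith
    · exact ⟨0, fun h => absurd h ht⟩
  choose g' hg' using hex
  have hb := barrier (g := fun s => yy L u v i s + 2 / d i * mass L u s) (g' := g') (T := T)
    (k := d i / L ^ 2) (c := 4 * M * L / d i + 6 * M ^ 2 * L ^ 3 / d i ^ 2) (by positivity)
    (fun t ht => (hg' t ht).1) (fun t ht => (hg' t ht).2)
  refine ⟨4 * M * L / d i + 6 * M ^ 2 * L ^ 3 / d i ^ 2 + |(yy L u v i T +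
    2 / d i * mass L u T) - (4 * M * L / d i + 6 * M ^ 2 * L ^ 3 / d i ^ 2)|, T, hT,
    fun t ht => ?_⟩
  have h3 := hb t ht
  have h4 : 0 ≤ 2 / d i * mass L u t := mul_nonneg (by positivity) (hm0 t (hT.le.trans ht))
  have h5 : yy L u v i t ≤ yy L u v i t + 2 / d i * mass L u t := by linarith
  exact h5.trans h3

end Pool.Agent.Lib.MP_4fbe7c_an.FC.H74
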